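import Pool.Agent.RCM.Stmts

set_option autoImplicit false

namespace Pool.Agent.RCM.H53

open Set

universe u

/-- MVB -/
theorem mvb : MvbStmt.{u} := by
  intro E K _ _ M N κ s t P X T hC hMx hS
  have hEM : ∀ x, x ∈ M.E := fun x => (hC.indM (κ x)).subset_ground (by simp)
  have hEN : ∀ x, x ∈ N.E := fun x => (hC.indN (κ x)).subset_ground (by simp)
  have h1 : ∀ x, κ x ∉ κ '' T → x ∉ M.closure (T ∪ P) → x ∈ N.closure T := by
    intro x hx hM
    by_contra hN
    have hxT : x ∉ T := fun h => hx (mem_image_of_mem κ h)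
    have a1 : N.Indep (insert x T) := ((hS.ri.indN.notMem_closure_iff (hEN x)).1 hN).1
    have a2 : M.Indep (insert x (T ∪ P)) := ((hS.fr.notMem_closure_iff (hEM x)).1 hM).1
    have a3 : M.Indep (insert x T) := a2.subset (insert_subset_insert subset_union_left)
    have a4 : InjOn κ (insert x T) := (injOn_insert hxT).2 ⟨hS.ri.inj, hx⟩
    have a5 := hMx (insert x T) ⟨a3, a1, a4⟩
    rw [ncard_insert_of_notMem hxT (toFinite _), hS.card] at a5
    omega
  refine ⟨h1, ?_⟩
  rintro T' ⟨x, y, hy, hκ, hX, hM, hN, rfl⟩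
  have hxT : x ∉ T := fun h => hκ (mem_image_of_mem κ h)
  have hPE : T ∪ P ⊆ M.E := hS.fr.subset_ground
  have hxP : x ∉ P := fun h => hM (M.subset_closure (T ∪ P) hPE (Or.inr h))
  have hyP : y ∉ P := fun h => (disjoint_left.1 hS.dj) hy h
  have hxy : x ≠ y := fun h => hxT (h ▸ hy)
  have a2 : M.Indep (insert x (T ∪ P)) := ((hS.fr.notMem_closure_iff (hEM x)).1 hM).1
  have hTy : N.Indep (T \ {y}) := hS.ri.indN.subset sdiff_subset
  have a1 : N.Indep (insert x (T \ {y})) := ((hTy.notMem_closure_iff (hEN x)).1 hN).1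
  have hsub : insert x (T \ {y}) ∪ P ⊆ insert x (T ∪ P) := by
    rintro e (he | he)
    · rcases he with rfl | he
      · exact Or.inl rfl
      · exact Or.inr (Or.inl he.1)
    · exact Or.inr (Or.inr he)
  have hins : insert y (T \ {y}) = T := by
    rw [insert_sdiff_singleton, insert_eq_of_mem hy]
  have hst : St M N κ P X t (insert x (T \ {y})) := by
    refine ⟨⟨a2.subset (subset_union_left.trans hsub), a1, ?_⟩, ?_, a2.subset hsub, ?_, ?_⟩
    · refine (injOn_insert (fun h => hxT h.1)).2 ⟨hS.ri.inj.mono sdiff_subset, ?_⟩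
      rintro ⟨e, he, hee⟩
      exact hκ ⟨e, he.1, hee⟩
    · rw [ncard_exchange hxT hy, hS.card]
    · rw [disjoint_left]
      rintro e (rfl | he) heP
      · exact hxP heP
      · exact (disjoint_left.1 hS.dj) he.1 heP
    · rintro e (rfl | he)
      · exact hX
      · exact hS.col e he.1
  have hycl : y ∈ N.closure (insert x (T \ {y})) := by
    refine Matroid.mem_closure_insert hN ?_
    rw [hins]
    exact h1 x hκ hM
  refine ⟨hst, ?_, ?_⟩
  · rw [← Matroid.closure_insert_eq_of_mem_closure hycl, insert_comm, hins]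
    exact Matroid.closure_insert_eq_of_mem_closure (h1 x hκ hM)
  · refine ⟨y, x, Or.inl rfl, ?_, hS.col y hy, ?_, ?_, ?_⟩
    · rintro ⟨e, he, hee⟩
      rcases he with rfl | he
      · exact hκ ⟨y, hy, hee.symm⟩
      · exact he.2 (hS.ri.inj he.1 hy hee)
    · have b1 : insert y (insert x (T \ {y}) ∪ P) ⊆ insert x (T ∪ P) := by
        rintro e (rfl | he)
        · exact Or.inr (Or.inl hy)
        · exact hsub he
      refine ((hst.fr.notMem_closure_iff (hEM y)).2 ⟨a2.subset b1, ?_⟩)
      rintro (he | he)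
      · rcases he with he | he
        · exact hxy he.symm
        · exact he.2 rfl
      · exact hyP he
    · have b2 : insert x (T \ {y}) \ {x} = T \ {y} := by
        rw [insert_sdiff_of_mem _ (mem_singleton x)]
        exact sdiff_singleton_eq_self (fun h => hxT h.1)
      rw [b2]
      refine (hTy.notMem_closure_iff (hEN y)).2 ⟨?_, fun h => h.2 rfl⟩
      rw [hins]
      exact hS.ri.indN
    · have b2 : insert x (T \ {y}) \ {x} = T \ {y} := by
        rw [insert_sdiff_of_mem _ (mem_singleton x)]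
        exact sdiff_singleton_eq_self (fun h => hxT h.1)
      rw [b2, hins]

end Pool.Agent.RCM.H53
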